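import Pool.Agent.FS.SubdivisionFree.Main

set_option autoImplicit false

namespace Pool.Agent.Variants.MP_cabec5_lc.SubdivisionFree

theorem result (θ lam : Cardinal.{0}) (h0 : Cardinal.aleph0 ≤ θ) (hl : θ < lam)
    (hp : lam ^ θ = lam) (m : ℕ) (hm : 2 ≤ m) (V : Type) (G : SimpleGraph V)
    (hH : ¬ (SimpleGraph.fromRel fun a b : (Fin m ⊕ Fin m) ⊕ Fin m × Fin m =>
      ∃ i j : Fin m, b = Sum.inr (i, j) ∧
        (a = Sum.inl (Sum.inl i) ∨ a = Sum.inl (Sum.inr j))).IsIndContained G)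
    (hK : ¬ ∃ A B : Set V, Cardinal.mk A = Order.succ lam ∧ Cardinal.mk B = θ ∧
      ∀ a ∈ A, ∀ b ∈ B, G.Adj a b) :
    ∃ r : V → V → Prop, IsWellOrder V r ∧
      ∀ v : V, Cardinal.mk {u : V // r u v ∧ G.Adj u v} < lam :=
  Pool.Agent.FS.SubdivisionFree.col_of_sub_free h0 hl hp.le hm hH hK

end Pool.Agent.Variants.MP_cabec5_lc.SubdivisionFree
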